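import Pool.Agent.Q298.DF.Half

/-!
# MP_02b125_co: directed hypercube flows with edge and vertex capacities

The answer to Q1 is no.  The set consists of many copies of a single violated edge and of a few
copies of the lower half of an odd cube, placed in pairwise incomparable subcubes.  The separation
distance of the union is bounded, so the vertex capacities are bounded, while the flow out of the
lower halves needs unbounded vertex capacities.
-/

open Finset

namespace Pool.Agent.Results.MP_02b125_co.TwoScales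

open Pool.Agent.Q298.DF

/-- the vertices of the directed hypercube of dimension `d`: a vertex is the set of its ones -/
abbrev V (d : ℕ) := Finset (Fin d)

variable {d : ℕ}

/-- directed edge from `x` to `y` -/
def Edge (x y : V d) : Prop := x ⊆ y ∧ y.card = x.card + 1

/-- `(A, φ(A); φ)` is a matched pair with `A ⊆ S` and `φ(A) ⊆ Sᶜ` -/
def Matched (S A : Finset (V d)) (φ : V d → V d) : Prop :=
  A ⊆ S ∧ (∀ a ∈ A, a ⊂ φ a ∧ φ a ∉ S) ∧ Set.InjOn φ A

/-- directed volume -/
noncomputable def dvol (S : Finset (V d)) : ℕ :=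
  sSup {n | ∃ (A : Finset (V d)) (φ : V d → V d), Matched S A φ ∧ A.card = n}

/-- separation distance of a matched pair -/
noncomputable def sepPair (A : Finset (V d)) (φ : V d → V d) : ℝ :=
  (∑ a ∈ A, (((φ a).card : ℝ) - (a.card : ℝ))) / A.card

/-- separation distance of a set: the minimum over the directed volume certificates -/
noncomputable def sep (S : Finset (V d)) : ℝ :=
  sInf {t | ∃ (A : Finset (V d)) (φ : V d → V d), Matched S A φ ∧ A.card = dvol S ∧ t = sepPair A φ}

/-- feasible flow in the network of `S` with edge capacity `cE` and vertex capacity `cV`: `f x y` is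
the flow through the edge from `x` to `y`, `s x` the flow from the source to `x`, `t x` the flow
from `x` to the sink. -/
structure IsFlow (S : Finset (V d)) (cE cV : ℝ) (f : V d → V d → ℝ) (s t : V d → ℝ) : Prop where
  nonneg : ∀ x y, 0 ≤ f x y
  s_nonneg : ∀ x, 0 ≤ s x
  t_nonneg : ∀ x, 0 ≤ t x
  edge : ∀ x y, ¬ Edge x y → f x y = 0
  source : ∀ x, x ∉ S → s x = 0
  sink : ∀ x, x ∈ S → t x = 0
  cons : ∀ x, s x + ∑ y, f y x = t x + ∑ y, f x y
  capE : ∀ x y, f x y ≤ cE
  capV : ∀ x, s x + ∑ y, f y x ≤ cV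

/-- the maximum flow -/
noncomputable def maxflow (S : Finset (V d)) (cE cV : ℝ) : ℝ :=
  sSup {v | ∃ f s t, IsFlow S cE cV f s t ∧ v = ∑ x, s x}

/-! ### coordinates -/

section coord

variable {k m : ℕ}

/-- the first `k` coordinates -/
def pz (x : V (k + m)) : Finset (Fin k) := univ.filter (fun i => Fin.castAdd m i ∈ x)

/-- the last `m` coordinates -/
def py (x : V (k + m)) : Finset (Fin m) := univ.filter (fun i => Fin.natAdd k i ∈ x)

/-- the vertex with given parts -/
def mk (z : Finset (Fin k)) (y : Finset (Fin m)) : V (k + m) :=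
  z.map (Fin.castAddEmb m) ∪ y.map (Fin.natAddEmb k)

lemma mem_pz {x : V (k + m)} {i : Fin k} : i ∈ pz x ↔ Fin.castAdd m i ∈ x := by simp [pz]

lemma mem_py {x : V (k + m)} {i : Fin m} : i ∈ py x ↔ Fin.natAdd k i ∈ x := by simp [py]

lemma castAdd_mem_mk {z : Finset (Fin k)} {y : Finset (Fin m)} {i : Fin k} :
    Fin.castAdd m i ∈ mk z y ↔ i ∈ z := by
  simp only [mk, mem_union, mem_map]
  constructor
  · rintro (⟨a, ha, h⟩ | ⟨a, _, h⟩)
    · have : a = i := Fin.castAdd_injective k m h
      rwa [← this]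
    · exfalso
      have h2 := congrArg Fin.val h
      simp at h2
      omega
  · intro h
    exact Or.inl ⟨i, h, rfl⟩

lemma natAdd_mem_mk {z : Finset (Fin k)} {y : Finset (Fin m)} {i : Fin m} :
    Fin.natAdd k i ∈ mk z y ↔ i ∈ y := by
  simp only [mk, mem_union, mem_map]
  constructor
  · rintro (⟨a, _, h⟩ | ⟨a, ha, h⟩)
    · exfalso
      have h2 := congrArg Fin.val h
      simp at h2
      omega
    · have : a = i := Fin.natAdd_injective m k h
      rwa [← this]
  · intro h
    exact Or.inr ⟨i, h, rfl⟩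

lemma pz_mk (z : Finset (Fin k)) (y : Finset (Fin m)) : pz (mk z y) = z := by
  ext i
  rw [mem_pz, castAdd_mem_mk]

lemma py_mk (z : Finset (Fin k)) (y : Finset (Fin m)) : py (mk z y) = y := by
  ext i
  rw [mem_py, natAdd_mem_mk]

lemma sub_iff {x y : V (k + m)} : x ⊆ y ↔ pz x ⊆ pz y ∧ py x ⊆ py y := by
  constructor
  · intro h
    exact ⟨fun i hi => mem_pz.2 (h (mem_pz.1 hi)), fun i hi => mem_py.2 (h (mem_py.1 hi))⟩
  · rintro ⟨h1, h2⟩ i
    refine Fin.addCases (fun a => ?_) (fun a => ?_) i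
    · intro hi
      exact mem_pz.1 (h1 (mem_pz.2 hi))
    · intro hi
      exact mem_py.1 (h2 (mem_py.2 hi))

lemma ext_iff' {x y : V (k + m)} : x = y ↔ pz x = pz y ∧ py x = py y := by
  constructor
  · rintro rfl
    exact ⟨rfl, rfl⟩
  · rintro ⟨h1, h2⟩
    exact Subset.antisymm (sub_iff.2 ⟨h1.subset, h2.subset⟩)
      (sub_iff.2 ⟨h1.symm.subset, h2.symm.subset⟩)

lemma mk_eta (x : V (k + m)) : mk (pz x) (py x) = x := by
  rw [ext_iff', pz_mk, py_mk]
  exact ⟨rfl, rfl⟩

lemma card_eq (x : V (k + m)) : x.card = (pz x).card + (py x).card := by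
  conv_lhs => rw [← mk_eta x]
  unfold mk
  rw [card_union_of_disjoint, card_map, card_map]
  rw [disjoint_left]
  intro a h1 h2
  rw [mem_map] at h1 h2
  obtain ⟨b, _, hb⟩ := h1
  obtain ⟨c, _, hc⟩ := h2
  have h3 : Fin.castAdd m b = Fin.natAdd k c := hb.trans hc.symm
  have h4 := congrArg Fin.val h3
  simp at h4
  omega

end coord

/-! ### the example -/

section example_

variable (T q j : ℕ)

/-- the cube without one point -/
def A0 : Finset (Fin (2 * j + 1)) := univ.erase 0

/-- membership of the sources -/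
def SrcP (x : V (T + q + (2 * j + 1))) : Prop :=
  ∃ i : Fin (T + q), pz x = {i} ∧
    ((i.val < T ∧ py x = A0 j) ∨ (T ≤ i.val ∧ py x ∈ low j))

/-- membership of the targets -/
def TgtP (x : V (T + q + (2 * j + 1))) : Prop :=
  ∃ i : Fin (T + q), pz x = {i} ∧
    ((i.val < T ∧ py x = univ) ∨ (T ≤ i.val ∧ py x ∈ upp j))

open Classical in
/-- the sources -/
noncomputable def Src : Finset (V (T + q + (2 * j + 1))) := univ.filter (SrcP T q j)

open Classical in
/-- the targets -/
noncomputable def Tgt : Finset (V (T + q + (2 * j + 1))) := univ.filter (TgtP T q j)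

open Classical in
/-- the set of the example -/
noncomputable def SS : Finset (V (T + q + (2 * j + 1))) :=
  univ.filter (fun x => 2 ≤ (pz x).card ∨ SrcP T q j x)

variable {T q j}

lemma mem_Src {x : V (T + q + (2 * j + 1))} : x ∈ Src T q j ↔ SrcP T q j x := by simp [Src]

lemma mem_Tgt {x : V (T + q + (2 * j + 1))} : x ∈ Tgt T q j ↔ TgtP T q j x := by simp [Tgt]

lemma mem_SS {x : V (T + q + (2 * j + 1))} :
    x ∈ SS T q j ↔ 2 ≤ (pz x).card ∨ SrcP T q j x := by simp [SS]

lemma A0_ne : A0 j ≠ univ := by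
  intro h
  have : (0 : Fin (2 * j + 1)) ∈ A0 j := by rw [h]; exact mem_univ _
  simp [A0] at this

lemma A0_card : (A0 j).card = 2 * j := by
  rw [A0, card_erase_of_mem (mem_univ _), card_univ, Fintype.card_fin]
  omega

lemma above_A0 {y : Finset (Fin (2 * j + 1))} (h : A0 j ⊆ y) (hne : y ≠ A0 j) : y = univ := by
  have h1 : (A0 j).card < y.card := card_lt_card ((ssubset_iff_subset_ne).2 ⟨h, hne.symm⟩)
  rw [A0_card] at h1
  have h2 := card_le' y
  exact eq_univ_of_card y (by rw [Fintype.card_fin]; omega)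

/-- pairs from `S` to the complement -/
lemma pair_mem {a b : V (T + q + (2 * j + 1))} (ha : a ∈ SS T q j) (hb : b ∉ SS T q j)
    (hab : a ⊂ b) : a ∈ Src T q j ∧ b ∈ Tgt T q j := by
  have hsub := sub_iff.1 hab.1
  rw [mem_SS] at ha hb
  rw [not_or] at hb
  have h1 : (pz a).card ≤ (pz b).card := card_le_card hsub.1
  have hsrc : SrcP T q j a := by
    rcases ha with h | h
    · exfalso
      exact hb.1 (h.trans h1)
    · exact h
  refine ⟨mem_Src.2 hsrc, mem_Tgt.2 ?_⟩
  obtain ⟨i, hi, hcase⟩ := hsrc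
  have hzb : pz b = {i} := by
    have h2 : ({i} : Finset (Fin (T + q))) ⊆ pz b := by rw [← hi]; exact hsub.1
    refine (eq_of_subset_of_card_le h2 ?_).symm
    rw [card_singleton]
    omega
  refine ⟨i, hzb, ?_⟩
  rcases hcase with ⟨h2, h3⟩ | ⟨h2, h3⟩
  · left
    refine ⟨h2, above_A0 (by rw [← h3]; exact hsub.2) ?_⟩
    intro h4
    exact hb.2 ⟨i, hzb, Or.inl ⟨h2, h4⟩⟩
  · right
    refine ⟨h2, ?_⟩
    have h4 : py b ∉ low j := fun h4 => hb.2 ⟨i, hzb, Or.inr ⟨h2, h4⟩⟩
    rw [mem_low] at h4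
    rw [mem_upp]
    omega

/-- indices of the sources or the targets -/
noncomputable def idx (T q j : ℕ) (a : Finset (Fin (2 * j + 1)))
    (B : Finset (Finset (Fin (2 * j + 1)))) : Finset (Fin (T + q) × Finset (Fin (2 * j + 1))) :=
  univ.filter (fun p => (p.1.val < T ∧ p.2 = a) ∨ (T ≤ p.1.val ∧ p.2 ∈ B))

lemma sum_idx (a : Finset (Fin (2 * j + 1))) (B : Finset (Finset (Fin (2 * j + 1))))
    (g : Finset (Fin (2 * j + 1)) → ℝ) :
    ∑ p ∈ idx T q j a B, g p.2 = T * g a + q * ∑ y ∈ B, g y := by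
  unfold idx
  rw [sum_filter, Fintype.sum_prod_type, Fin.sum_univ_add]
  have h1 : ∀ i : Fin T, ∑ y : Finset (Fin (2 * j + 1)),
      (if ((Fin.castAdd q i).val < T ∧ y = a) ∨ (T ≤ (Fin.castAdd q i).val ∧ y ∈ B) then g y else 0)
        = g a := by
    intro i
    have hi : (Fin.castAdd q i).val < T := i.2
    have : ∀ y : Finset (Fin (2 * j + 1)), (((Fin.castAdd q i).val < T ∧ y = a) ∨
        (T ≤ (Fin.castAdd q i).val ∧ y ∈ B)) ↔ y = a := by
      intro y
      constructor
      · rintro (⟨_, h⟩ | ⟨h, _⟩)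
        · exact h
        · omega
      · intro h
        exact Or.inl ⟨hi, h⟩
    simp only [this]
    simp
  have h2 : ∀ i : Fin q, ∑ y : Finset (Fin (2 * j + 1)),
      (if ((Fin.natAdd T i).val < T ∧ y = a) ∨ (T ≤ (Fin.natAdd T i).val ∧ y ∈ B) then g y else 0)
        = ∑ y ∈ B, g y := by
    intro i
    have hi : T ≤ (Fin.natAdd T i).val := by simp
    have : ∀ y : Finset (Fin (2 * j + 1)), (((Fin.natAdd T i).val < T ∧ y = a) ∨
        (T ≤ (Fin.natAdd T i).val ∧ y ∈ B)) ↔ y ∈ B := by
      intro y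
      constructor
      · rintro (⟨h, _⟩ | ⟨_, h⟩)
        · omega
        · exact h
      · intro h
        exact Or.inr ⟨hi, h⟩
    simp only [this]
    rw [← sum_filter]
    congr 1
    ext y
    simp
  rw [sum_congr rfl (fun i _ => h1 i), sum_congr rfl (fun i _ => h2 i)]
  simp

lemma mk_inj : Function.Injective
    (fun p : Fin (T + q) × Finset (Fin (2 * j + 1)) => (mk {p.1} p.2 : V (T + q + (2 * j + 1)))) := by
  rintro ⟨i, y⟩ ⟨i', y'⟩ h
  simp only at h
  rw [ext_iff', pz_mk, pz_mk, py_mk, py_mk] at h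
  have h1 := singleton_injective h.1
  rw [Prod.mk.injEq]
  exact ⟨h1, h.2⟩

lemma Src_eq : Src T q j = (idx T q j (A0 j) (low j)).image (fun p => mk {p.1} p.2) := by
  ext x
  rw [mem_Src, mem_image]
  constructor
  · rintro ⟨i, hi, h⟩
    refine ⟨(i, py x), ?_, ?_⟩
    · simp only [idx, mem_filter, mem_univ, true_and]
      exact h
    · rw [ext_iff', pz_mk, py_mk]
      exact ⟨hi.symm, rfl⟩
  · rintro ⟨p, hp, rfl⟩
    simp only [idx, mem_filter, mem_univ, true_and] at hp
    exact ⟨p.1, pz_mk _ _, by rw [py_mk]; exact hp⟩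

lemma Tgt_eq : Tgt T q j = (idx T q j univ (upp j)).image (fun p => mk {p.1} p.2) := by
  ext x
  rw [mem_Tgt, mem_image]
  constructor
  · rintro ⟨i, hi, h⟩
    refine ⟨(i, py x), ?_, ?_⟩
    · simp only [idx, mem_filter, mem_univ, true_and]
      exact h
    · rw [ext_iff', pz_mk, py_mk]
      exact ⟨hi.symm, rfl⟩
  · rintro ⟨p, hp, rfl⟩
    simp only [idx, mem_filter, mem_univ, true_and] at hp
    exact ⟨p.1, pz_mk _ _, by rw [py_mk]; exact hp⟩

lemma card_mk (i : Fin (T + q)) (y : Finset (Fin (2 * j + 1))) :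
    (mk {i} y : V (T + q + (2 * j + 1))).card = y.card + 1 := by
  rw [card_eq, pz_mk, py_mk, card_singleton, add_comm]

lemma sum_Src (g : ℕ → ℝ) :
    ∑ x ∈ Src T q j, g x.card = T * g (2 * j + 1) + q * ∑ y ∈ low j, g (y.card + 1) := by
  rw [Src_eq, sum_image (fun _ _ _ _ h => mk_inj h)]
  have h := sum_idx (T := T) (q := q) (j := j) (A0 j) (low j) (fun y => g (y.card + 1))
  rw [A0_card] at h
  rw [← h]
  exact sum_congr rfl (fun p _ => by rw [card_mk])

lemma sum_Tgt (g : ℕ → ℝ) :
    ∑ x ∈ Tgt T q j, g x.card = T * g (2 * j + 2) + q * ∑ y ∈ upp j, g (y.card + 1) := by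
  rw [Tgt_eq, sum_image (fun _ _ _ _ h => mk_inj h)]
  have h := sum_idx (T := T) (q := q) (j := j) univ (upp j) (fun y => g (y.card + 1))
  rw [card_univ, Fintype.card_fin] at h
  rw [← h]
  exact sum_congr rfl (fun p _ => by rw [card_mk])

lemma card_Src : (Src T q j).card = T + q * 4 ^ j := by
  have h := sum_Src (T := T) (q := q) (j := j) (fun _ => 1)
  simp only [sum_const, nsmul_eq_mul, mul_one, card_low] at h
  exact_mod_cast h

lemma card_Tgt : (Tgt T q j).card = T + q * 4 ^ j := by
  have h := sum_Tgt (T := T) (q := q) (j := j) (fun _ => 1)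
  simp only [sum_const, nsmul_eq_mul, mul_one, card_upp, card_low] at h
  exact_mod_cast h

/-- the total distance -/
lemma total : ∑ x ∈ Tgt T q j, (x.card : ℝ) - ∑ x ∈ Src T q j, (x.card : ℝ)
    = T + q * tot j := by
  have h1 := sum_Src (T := T) (q := q) (j := j) (fun n => (n : ℝ))
  have h2 := sum_Tgt (T := T) (q := q) (j := j) (fun n => (n : ℝ))
  have h3 := sum_upp (j := j) (fun n => ((n + 1 : ℕ) : ℝ))
  rw [h1, h2, h3, ← sum_low]
  have h4 : ∑ y ∈ low j, (((2 * j + 1 - y.card + 1 : ℕ) : ℝ))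
      = ∑ y ∈ low j, ((2 * j + 2 : ℝ) - y.card) := by
    refine sum_congr rfl (fun y _ => ?_)
    have := card_le' y
    rw [Nat.cast_add, Nat.cast_sub this]
    push_cast
    ring
  rw [h4, sum_sub_distrib, sum_sub_distrib, ← mul_sum]
  have h5 : ∑ y ∈ low j, (((y.card + 1 : ℕ) : ℝ)) = ∑ y ∈ low j, (y.card : ℝ) + (low j).card := by
    push_cast
    rw [sum_add_distrib]
    simp
  rw [h5]
  simp only [sum_const, nsmul_eq_mul]
  push_cast
  ring

/-- a certificate that uses all the sources -/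
lemma exists_cert : ∃ φ : V (T + q + (2 * j + 1)) → V (T + q + (2 * j + 1)),
    Matched (SS T q j) (Src T q j) φ := by
  classical
  obtain ⟨ψ, hψ1, hψ2⟩ := exists_matching j
  refine ⟨fun x => if ∃ i : Fin (T + q), pz x = {i} ∧ i.val < T then mk (pz x) univ
    else mk (pz x) (ψ (py x)), ?_, ?_, ?_⟩
  · intro x hx
    exact mem_SS.2 (Or.inr (mem_Src.1 hx))
  · intro x hx
    obtain ⟨i, hi, hcase⟩ := mem_Src.1 hx
    rcases hcase with ⟨h1, h2⟩ | ⟨h1, h2⟩
    · have hex : ∃ i : Fin (T + q), pz x = {i} ∧ i.val < T := ⟨i, hi, h1⟩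
      simp only [if_pos hex]
      refine ⟨?_, ?_⟩
      · refine (ssubset_iff_subset_ne).2 ⟨sub_iff.2 ?_, fun h => ?_⟩
        · rw [pz_mk, py_mk]
          exact ⟨subset_refl _, subset_univ _⟩
        · have h3 := (ext_iff'.1 h).2
          rw [py_mk, h2] at h3
          exact A0_ne h3
      · rw [mem_SS, pz_mk, not_or]
        refine ⟨by rw [hi, card_singleton]; omega, ?_⟩
        rintro ⟨i', hi', hc⟩
        rw [pz_mk, hi] at hi'
        have hii := singleton_injective hi'
        rw [py_mk, ← hii] at hc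
        rcases hc with ⟨_, h4⟩ | ⟨h4, _⟩
        · exact A0_ne h4.symm
        · omega
    · have hex : ¬ ∃ i : Fin (T + q), pz x = {i} ∧ i.val < T := by
        rintro ⟨i', hi', h4⟩
        rw [hi] at hi'
        have := singleton_injective hi'
        rw [← this] at h4
        omega
      simp only [if_neg hex]
      obtain ⟨h3, h4⟩ := hψ1 _ h2
      refine ⟨?_, ?_⟩
      · refine (ssubset_iff_subset_ne).2 ⟨sub_iff.2 ?_, fun h => ?_⟩
        · rw [pz_mk, py_mk]
          exact ⟨subset_refl _, h3.1⟩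
        · have h5 := (ext_iff'.1 h).2
          rw [py_mk] at h5
          exact h3.ne h5
      · rw [mem_SS, pz_mk, not_or]
        refine ⟨by rw [hi, card_singleton]; omega, ?_⟩
        rintro ⟨i', hi', hc⟩
        rw [pz_mk, hi] at hi'
        have hii := singleton_injective hi'
        rw [py_mk, ← hii] at hc
        rcases hc with ⟨h5, _⟩ | ⟨_, h5⟩
        · omega
        · rw [mem_low] at h5
          rw [mem_upp] at h4
          omega
  · intro x hx x' hx' h
    simp only at h
    obtain ⟨i, hi, hcase⟩ := mem_Src.1 (mem_coe.1 hx)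
    obtain ⟨i', hi', hcase'⟩ := mem_Src.1 (mem_coe.1 hx')
    have hz : pz x = pz x' := by
      have h1 := congrArg pz h
      split_ifs at h1 <;> simpa only [pz_mk] using h1
    have hii : i = i' := by
      rw [hz, hi'] at hi
      exact (singleton_injective hi).symm
    rw [ext_iff']
    refine ⟨hz, ?_⟩
    subst hii
    by_cases hiT : i.val < T
    · have h2 : py x = A0 j := by
        rcases hcase with ⟨_, h2⟩ | ⟨h2, _⟩
        · exact h2
        · omega
      have h2' : py x' = A0 j := by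
        rcases hcase' with ⟨_, h2⟩ | ⟨h2, _⟩
        · exact h2
        · omega
      rw [h2, h2']
    · have h2 : py x ∈ low j := by
        rcases hcase with ⟨h2, _⟩ | ⟨_, h2⟩
        · exact absurd h2 hiT
        · exact h2
      have h2' : py x' ∈ low j := by
        rcases hcase' with ⟨h2, _⟩ | ⟨_, h2⟩
        · exact absurd h2 hiT
        · exact h2
      have hex : ¬ ∃ i : Fin (T + q), pz x = {i} ∧ i.val < T := by
        rintro ⟨a, ha, h4⟩
        rw [hi] at ha
        have := singleton_injective ha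
        rw [← this] at h4
        exact hiT h4
      have hex' : ¬ ∃ i : Fin (T + q), pz x' = {i} ∧ i.val < T := by
        rw [← hz]
        exact hex
      rw [if_neg hex, if_neg hex'] at h
      have h3 := congrArg py h
      rw [py_mk, py_mk] at h3
      exact hψ2 (mem_coe.2 h2) (mem_coe.2 h2') h3

lemma matched_sub {A : Finset (V (T + q + (2 * j + 1)))}
    {φ : V (T + q + (2 * j + 1)) → V (T + q + (2 * j + 1))} (h : Matched (SS T q j) A φ) :
    A ⊆ Src T q j ∧ A.image φ ⊆ Tgt T q j := by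
  refine ⟨fun a ha => (pair_mem (h.1 ha) (h.2.1 a ha).2 (h.2.1 a ha).1).1, ?_⟩
  intro b hb
  obtain ⟨a, ha, rfl⟩ := mem_image.1 hb
  exact (pair_mem (h.1 ha) (h.2.1 a ha).2 (h.2.1 a ha).1).2

lemma dvol_SS : dvol (SS T q j) = T + q * 4 ^ j := by
  obtain ⟨φ, hφ⟩ := exists_cert (T := T) (q := q) (j := j)
  refine le_antisymm ?_ ?_
  · refine csSup_le ⟨_, Src T q j, φ, hφ, rfl⟩ ?_
    rintro n ⟨A, φ', h, rfl⟩
    rw [← card_Src]
    exact card_le_card (matched_sub h).1
  · rw [← card_Src]
    refine le_csSup ⟨(Src T q j).card, ?_⟩ ⟨Src T q j, φ, hφ, rfl⟩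
    rintro n ⟨A, φ', h, rfl⟩
    exact card_le_card (matched_sub h).1

lemma cert_sep {A : Finset (V (T + q + (2 * j + 1)))}
    {φ : V (T + q + (2 * j + 1)) → V (T + q + (2 * j + 1))} (h : Matched (SS T q j) A φ)
    (hA : A.card = dvol (SS T q j)) :
    sepPair A φ = (T + q * tot j : ℝ) / (T + q * 4 ^ j) := by
  rw [dvol_SS] at hA
  have h1 : A = Src T q j :=
    eq_of_subset_of_card_le (matched_sub h).1 (by rw [card_Src, hA])
  have h2 : A.image φ = Tgt T q j := by
    refine eq_of_subset_of_card_le (matched_sub h).2 ?_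
    rw [card_image_of_injOn h.2.2, card_Tgt, hA]
  unfold sepPair
  rw [hA, sum_sub_distrib]
  have h3 : ∑ a ∈ A, ((φ a).card : ℝ) = ∑ b ∈ Tgt T q j, (b.card : ℝ) := by
    rw [← h2, sum_image h.2.2]
  rw [h3, h1, total]
  push_cast
  rfl

lemma sep_SS : sep (SS T q j) = (T + q * tot j : ℝ) / (T + q * 4 ^ j) := by
  obtain ⟨φ, hφ⟩ := exists_cert (T := T) (q := q) (j := j)
  have hc : (Src T q j).card = dvol (SS T q j) := by rw [dvol_SS, card_Src]
  have : {t | ∃ (A : Finset (V (T + q + (2 * j + 1)))) (φ : V (T + q + (2 * j + 1)) →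
      V (T + q + (2 * j + 1))), Matched (SS T q j) A φ ∧ A.card = dvol (SS T q j) ∧
      t = sepPair A φ} = {(T + q * tot j : ℝ) / (T + q * 4 ^ j)} := by
    ext t
    constructor
    · rintro ⟨A, φ', h1, h2, rfl⟩
      exact cert_sep h1 h2
    · rintro rfl
      exact ⟨Src T q j, φ, hφ, hc, (cert_sep hφ hc).symm⟩
  unfold sep
  rw [this, csInf_singleton]

/-! ### the flow -/

open Classical in
/-- the sources in the lower halves -/
noncomputable def Src2 (T q j : ℕ) : Finset (V (T + q + (2 * j + 1))) :=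
  (Src T q j).filter (fun x => ∃ i : Fin (T + q), pz x = {i} ∧ T ≤ i.val)

open Classical in
/-- the other sources -/
noncomputable def Src1 (T q j : ℕ) : Finset (V (T + q + (2 * j + 1))) :=
  (Src T q j).filter (fun x => ¬ ∃ i : Fin (T + q), pz x = {i} ∧ T ≤ i.val)

lemma card_Src1 : (Src1 T q j).card ≤ T := by
  classical
  have h : Src1 T q j ⊆ (univ : Finset (Fin T)).image
      (fun i => (mk {Fin.castAdd q i} (A0 j) : V (T + q + (2 * j + 1)))) := by
    intro x hx
    obtain ⟨h1, h2⟩ := mem_filter.1 hx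
    obtain ⟨i, hi, hcase⟩ := mem_Src.1 h1
    rcases hcase with ⟨h3, h4⟩ | ⟨h3, _⟩
    · rw [mem_image]
      refine ⟨⟨i.val, h3⟩, mem_univ _, ?_⟩
      rw [ext_iff', pz_mk, py_mk]
      refine ⟨?_, h4.symm⟩
      rw [hi]
      rfl
    · exact absurd ⟨i, hi, h3⟩ h2
  calc (Src1 T q j).card ≤ _ := card_le_card h
    _ ≤ (univ : Finset (Fin T)).card := card_image_le
    _ = T := by simp

lemma card_Src2 : (Src2 T q j).card ≤ q * 4 ^ j := by
  classical
  have h : Src2 T q j ⊆ ((univ : Finset (Fin q)) ×ˢ low j).image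
      (fun p => (mk {Fin.natAdd T p.1} p.2 : V (T + q + (2 * j + 1)))) := by
    intro x hx
    obtain ⟨h1, i', hi', h2⟩ := mem_filter.1 hx
    obtain ⟨i, hi, hcase⟩ := mem_Src.1 h1
    have hii : i = i' := by
      rw [hi] at hi'
      exact singleton_injective hi'
    subst hii
    rcases hcase with ⟨h3, _⟩ | ⟨_, h4⟩
    · omega
    · rw [mem_image]
      have hlt := i.2
      refine ⟨(⟨i.val - T, by omega⟩, py x), ?_, ?_⟩
      · rw [mem_product]
        exact ⟨mem_univ _, h4⟩
      · rw [ext_iff', pz_mk, py_mk]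
        refine ⟨?_, rfl⟩
        rw [hi]
        congr 1
        ext
        simp
        omega
  calc (Src2 T q j).card ≤ _ := card_le_card h
    _ ≤ ((univ : Finset (Fin q)) ×ˢ low j).card := card_image_le
    _ = q * 4 ^ j := by rw [card_product, card_low]; simp

/-- bound for every flow -/
lemma flow_le {cV : ℝ} {f : V (T + q + (2 * j + 1)) → V (T + q + (2 * j + 1)) → ℝ}
    {s t : V (T + q + (2 * j + 1)) → ℝ} (h : IsFlow (SS T q j) 1 cV f s t) :
    ∑ x, s x ≤ T + q * 4 ^ j * cV := by
  classical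
  have hcV : 0 ≤ cV := by
    have h1 := h.capV ∅
    have h2 : 0 ≤ ∑ y, f y ∅ := sum_nonneg (fun y _ => h.nonneg y ∅)
    linarith [h.s_nonneg ∅]
  -- split the sum
  have e1 : ∑ x, s x = ∑ x ∈ Src2 T q j, s x + ∑ x ∈ SS T q j \ Src2 T q j, s x := by
    have hsub : Src2 T q j ⊆ SS T q j := by
      intro x hx
      exact mem_SS.2 (Or.inr (mem_Src.1 (mem_filter.1 hx).1))
    have h1 := sum_sdiff (f := s) hsub
    have h2 : ∑ x ∈ SS T q j, s x = ∑ x, s x :=
      sum_subset (subset_univ _) (fun x _ hx => h.source x hx)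
    linarith
  have b1 : ∑ x ∈ Src2 T q j, s x ≤ q * 4 ^ j * cV := by
    calc ∑ x ∈ Src2 T q j, s x ≤ ∑ _x ∈ Src2 T q j, cV := by
          refine sum_le_sum (fun x _ => ?_)
          have h1 := h.capV x
          have h2 : 0 ≤ ∑ y, f y x := sum_nonneg (fun y _ => h.nonneg y x)
          linarith
      _ = (Src2 T q j).card * cV := by simp
      _ ≤ ((q * 4 ^ j : ℕ) : ℝ) * cV := by
          refine mul_le_mul_of_nonneg_right ?_ hcV
          exact_mod_cast card_Src2
      _ = q * 4 ^ j * cV := by push_cast; ring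
  set Q := SS T q j \ Src2 T q j with hQ
  have b2 : ∑ x ∈ Q, s x ≤ ∑ x ∈ Q, ∑ y ∈ univ \ Q, f x y := by
    have h1 : ∀ x ∈ Q, s x = ∑ y, f x y - ∑ y, f y x := by
      intro x hx
      have h2 := h.cons x
      have h3 := h.sink x (mem_sdiff.1 hx).1
      linarith
    rw [sum_congr rfl h1, sum_sub_distrib]
    have h2 : ∑ x ∈ Q, ∑ y, f x y = ∑ x ∈ Q, ∑ y ∈ Q, f x y + ∑ x ∈ Q, ∑ y ∈ univ \ Q, f x y := by
      rw [← sum_add_distrib]
      refine sum_congr rfl (fun x _ => ?_)
      have h4 := sum_sdiff (f := fun y => f x y) (subset_univ Q)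
      linarith
    have h3 : ∑ x ∈ Q, ∑ y ∈ Q, f x y ≤ ∑ x ∈ Q, ∑ y, f y x := by
      rw [sum_comm]
      refine sum_le_sum (fun x _ => ?_)
      exact sum_le_sum_of_subset_of_nonneg (subset_univ Q) (fun y _ _ => h.nonneg y x)
    linarith
  have b3 : ∑ x ∈ Q, ∑ y ∈ univ \ Q, f x y ≤ T := by
    have h1 : ∀ x ∈ Q, ∑ y ∈ univ \ Q, f x y
        ≤ if x ∈ Src1 T q j then f x (mk (pz x) univ) else 0 := by
      intro x hx
      obtain ⟨hx1, hx2⟩ := mem_sdiff.1 hx
      by_cases hsrc : x ∈ Src1 T q j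
      · rw [if_pos hsrc]
        -- the only edge leaving is to `mk (pz x) univ`
        obtain ⟨h2, h3⟩ := mem_filter.1 hsrc
        obtain ⟨i, hi, hcase⟩ := mem_Src.1 h2
        have h4 : i.val < T ∧ py x = A0 j := by
          rcases hcase with h4 | ⟨h4, _⟩
          · exact h4
          · exact absurd ⟨i, hi, h4⟩ h3
        have h5 : ∀ y ∈ univ \ Q, y ≠ mk (pz x) univ → f x y = 0 := by
          intro y hy hne
          refine h.edge x y (fun hE => ?_)
          have hy2 : y ∉ Q := (mem_sdiff.1 hy).2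
          have hsub := sub_iff.1 hE.1
          have hc := hE.2
          rw [card_eq y, card_eq x] at hc
          by_cases hpz : 2 ≤ (pz y).card
          · refine hy2 (mem_sdiff.2 ⟨mem_SS.2 (Or.inl hpz), fun h6 => ?_⟩)
            obtain ⟨_, i', hi', _⟩ := mem_filter.1 h6
            rw [hi', card_singleton] at hpz
            omega
          · have hpe : pz y = pz x := by
              refine (eq_of_subset_of_card_le hsub.1 ?_).symm
              rw [hi, card_singleton]
              omega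
            refine hne ?_
            rw [ext_iff', pz_mk, py_mk]
            refine ⟨hpe, ?_⟩
            refine above_A0 (by rw [← h4.2]; exact hsub.2) ?_
            intro h6
            rw [hpe, h6, h4.2] at hc
            omega
        by_cases hmem : mk (pz x) univ ∈ univ \ Q
        · rw [sum_eq_single_of_mem _ hmem h5]
        · rw [sum_eq_zero (fun y hy => h5 y hy (fun he => hmem (he ▸ hy)))]
          exact h.nonneg _ _
      · rw [if_neg hsrc]
        -- here `x` has two ones among the first coordinates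
        have hns : x ∉ Src T q j := by
          intro h2
          by_cases h3 : ∃ i : Fin (T + q), pz x = {i} ∧ T ≤ i.val
          · exact hx2 (mem_filter.2 ⟨h2, h3⟩)
          · exact hsrc (mem_filter.2 ⟨h2, h3⟩)
        have hW : 2 ≤ (pz x).card := by
          rcases mem_SS.1 hx1 with h2 | h2
          · exact h2
          · exact absurd (mem_Src.2 h2) hns
        refine le_of_eq (sum_eq_zero (fun y hy => h.edge x y (fun hE => ?_)))
        have hsub := sub_iff.1 hE.1
        have hyW : 2 ≤ (pz y).card := hW.trans (card_le_card hsub.1)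
        refine (mem_sdiff.1 hy).2 (mem_sdiff.2 ⟨mem_SS.2 (Or.inl hyW), fun h6 => ?_⟩)
        obtain ⟨_, i', hi', _⟩ := mem_filter.1 h6
        rw [hi', card_singleton] at hyW
        omega
    calc ∑ x ∈ Q, ∑ y ∈ univ \ Q, f x y
        ≤ ∑ x ∈ Q, (if x ∈ Src1 T q j then f x (mk (pz x) univ) else 0) := sum_le_sum h1
      _ ≤ ∑ x ∈ Q, (if x ∈ Src1 T q j then (1 : ℝ) else 0) := by
          refine sum_le_sum (fun x _ => ?_)
          split_ifs
          · exact h.capE _ _
          · exact le_refl _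
      _ = ((Q.filter (fun x => x ∈ Src1 T q j)).card : ℝ) := by
          rw [← sum_filter]
          simp
      _ ≤ ((Src1 T q j).card : ℝ) := by
          have : Q.filter (fun x => x ∈ Src1 T q j) ⊆ Src1 T q j := by
            intro x hx
            exact (mem_filter.1 hx).2
          exact_mod_cast card_le_card this
      _ ≤ T := by exact_mod_cast card_Src1
  linarith

lemma maxflow_le {cV : ℝ} (hcV : 0 ≤ cV) : maxflow (SS T q j) 1 cV ≤ T + q * 4 ^ j * cV := by
  refine Real.sSup_le ?_ (by positivity)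
  rintro v ⟨f, s, t, h, rfl⟩
  exact flow_le h

end example_

/-- The conjectured flow bound fails for the vertex capacities `F (sep S)`, for every function `F`
which is bounded on bounded intervals. -/
theorem general (F : ℝ → ℝ) (hF0 : ∀ x, 0 ≤ F x) (hF : ∀ R : ℝ, ∃ M : ℝ, ∀ x, 0 ≤ x → x ≤ R → F x ≤ M)
    (c : ℝ) (hc : 0 < c) : ∃ (d : ℕ) (S : Finset (V d)), 2 ≤ d ∧ 1 ≤ dvol S ∧
      maxflow S 1 (F (sep S)) < c * sep S * dvol S := by
  obtain ⟨q, hq⟩ := exists_nat_gt (2 / c)
  have hq0 : 0 < q := by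
    have : (0 : ℝ) < q := lt_trans (by positivity) hq
    exact_mod_cast this
  obtain ⟨M, hM⟩ := hF (1 + q)
  obtain ⟨j, hj, hT⟩ := tot_large (q * |M|)
  have hTpos : (0 : ℝ) < tot j := lt_of_le_of_lt (by positivity) hT
  have hTn : 0 < tot j := by exact_mod_cast hTpos
  have h4 : (0 : ℝ) < 4 ^ j := by positivity
  have hqr : (0 : ℝ) < q := by exact_mod_cast hq0
  refine ⟨tot j + q + (2 * j + 1), SS (tot j) q j, by omega, ?_, ?_⟩
  · rw [dvol_SS]
    omega
  · have hN : (0 : ℝ) < (tot j : ℝ) + q * 4 ^ j := by positivity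
    have hs0 : 0 ≤ sep (SS (tot j) q j) := by
      rw [sep_SS]
      positivity
    have hs1 : sep (SS (tot j) q j) ≤ 1 + q := by
      rw [sep_SS, div_le_iff₀ hN]
      nlinarith [mul_pos hqr h4, mul_pos hqr (mul_pos hqr h4)]
    have hFM := hM _ hs0 hs1
    have hprod : c * sep (SS (tot j) q j) * dvol (SS (tot j) q j) = c * ((1 + q) * tot j) := by
      rw [sep_SS, dvol_SS]
      push_cast
      field_simp
    rw [hprod]
    have h1 := maxflow_le (T := tot j) (q := q) (j := j) (hF0 (sep (SS (tot j) q j)))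
    have h2 : (q : ℝ) * 4 ^ j * F (sep (SS (tot j) q j)) < tot j := by
      calc (q : ℝ) * 4 ^ j * F (sep (SS (tot j) q j)) ≤ q * 4 ^ j * |M| := by
            refine mul_le_mul_of_nonneg_left (hFM.trans (le_abs_self M)) (by positivity)
        _ = q * |M| * 4 ^ j := by ring
        _ < tot j := hT
    have h3 : 2 < c * (1 + q) := by
      rw [div_lt_iff₀ hc] at hq
      nlinarith
    calc maxflow (SS (tot j) q j) 1 (F (sep (SS (tot j) q j)))
        ≤ tot j + q * 4 ^ j * F (sep (SS (tot j) q j)) := h1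
      _ < 2 * tot j := by linarith
      _ ≤ c * (1 + q) * tot j := by nlinarith
      _ = c * ((1 + q) * tot j) := by ring

/-- Negative answer to Q1 (edge capacities one, vertex capacities the square of the separation
distance), and the same for vertex capacities which are any locally bounded function of the
separation distance. -/
theorem result :
    (∀ c : ℝ, 0 < c → ∃ (d : ℕ) (S : Finset (V d)), 2 ≤ d ∧ 1 ≤ dvol S ∧
      maxflow S 1 ((sep S) ^ 2) < c * sep S * dvol S) ∧
    (∀ F : ℝ → ℝ, (∀ x, 0 ≤ F x) → (∀ R : ℝ, ∃ M : ℝ, ∀ x, 0 ≤ x → x ≤ R → F x ≤ M) →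
      ∀ c : ℝ, 0 < c → ∃ (d : ℕ) (S : Finset (V d)), 2 ≤ d ∧ 1 ≤ dvol S ∧
        maxflow S 1 (F (sep S)) < c * sep S * dvol S) := by
  refine ⟨fun c hc => ?_, fun F hF0 hF c hc => general F hF0 hF c hc⟩
  refine general (fun x => x ^ 2) (fun x => sq_nonneg x) (fun R => ⟨R ^ 2, fun x h0 h1 => ?_⟩) c hc
  exact pow_le_pow_left₀ h0 h1 2

end Pool.Agent.Results.MP_02b125_co.TwoScales
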